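import Mathlib
import Pool.Agent.Steklov.Final

/-!
# Steklov isospectral, non-isometric, simply connected plane domains with analytic boundary
-/

set_option autoImplicit false

open Metric Set MeasureTheory

namespace Pool.Agent.Results.MP_4db88f_an.AnalyticJordanPair

/-- There are two functions `ψ₁, ψ₂`, holomorphic and injective on the disc of radius 2, such that
the images `Ω₁ = ψ₁(D)`, `Ω₂ = ψ₂(D)` of the unit disc (simply connected plane domains bounded by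
real analytic Jordan curves) have the same Steklov eigenvalues (given by the min-max principle for
boundary Rayleigh quotients of `C^1` functions) but are not isometric. -/
theorem result :
    ∃ ψ₁ ψ₂ : ℂ → ℂ,
      (DifferentiableOn ℂ ψ₁ (ball 0 2) ∧ InjOn ψ₁ (ball 0 2)) ∧
      (DifferentiableOn ℂ ψ₂ (ball 0 2) ∧ InjOn ψ₂ (ball 0 2)) ∧
      (∀ k : ℕ,
        sInf {s : ℝ | ∃ V : Submodule ℝ (ℂ → ℝ),
          (∀ u ∈ V, ContDiff ℝ 1 u) ∧ Module.finrank ℝ V = k + 1 ∧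
          (∀ u ∈ V, u ≠ 0 → 0 < ∫ x in frontier (ψ₁ '' ball 0 1), u x ^ 2 ∂μH[1]) ∧
          s = sSup {t : ℝ | ∃ u ∈ V, u ≠ 0 ∧
            t = (∫ x in ψ₁ '' ball 0 1, ‖fderiv ℝ u x‖ ^ 2) /
              ∫ x in frontier (ψ₁ '' ball 0 1), u x ^ 2 ∂μH[1]}} =
        sInf {s : ℝ | ∃ V : Submodule ℝ (ℂ → ℝ),
          (∀ u ∈ V, ContDiff ℝ 1 u) ∧ Module.finrank ℝ V = k + 1 ∧
          (∀ u ∈ V, u ≠ 0 → 0 < ∫ x in frontier (ψ₂ '' ball 0 1), u x ^ 2 ∂μH[1]) ∧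
          s = sSup {t : ℝ | ∃ u ∈ V, u ≠ 0 ∧
            t = (∫ x in ψ₂ '' ball 0 1, ‖fderiv ℝ u x‖ ^ 2) /
              ∫ x in frontier (ψ₂ '' ball 0 1), u x ^ 2 ∂μH[1]}}) ∧
      ¬ ∃ e : ℂ ≃ᵢ ℂ, e '' (ψ₁ '' ball 0 1) = ψ₂ '' ball 0 1 :=
  Pool.Agent.Steklov.exists_pair_maps

end Pool.Agent.Results.MP_4db88f_an.AnalyticJordanPair
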